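import Pool.Agent.Helper16.Abund.Defs2
import Pool.Agent.Helper8.Abund.FDerivHolo

/-!
Periods of a closed lattice-invariant 2-form are constant.
-/

open scoped Manifold ContDiff ENNReal Topology ComplexConjugate ComplexOrder
open MeasureTheory Metric

namespace Pool.Agent.Helper22.Abund

open Pool.Agent.Helper16.Abund

section closed

variable {W V : Type*} [NormedAddCommGroup W] [NormedSpace ℝ W] [NormedAddCommGroup V]
  [NormedSpace ℝ V]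

/-- The pull back of a 2-form, evaluated on constant vectors. -/
noncomputable def pb (Ω : V → V →L[ℝ] V →L[ℝ] ℝ) (Φ : W → V) (u v : W) (x : W) : ℝ :=
  Ω (Φ x) (fderiv ℝ Φ x u) (fderiv ℝ Φ x v)

theorem pb_hasFDerivAt {Ω : V → V →L[ℝ] V →L[ℝ] ℝ} {Φ : W → V} {x : W}
    (hΩ : DifferentiableAt ℝ Ω (Φ x)) (hΦ : ContDiffAt ℝ 2 Φ x) (u v : W) :
    ∃ L : W →L[ℝ] ℝ, HasFDerivAt (pb Ω Φ u v) L x ∧ ∀ w, L w =
      fderiv ℝ Ω (Φ x) (fderiv ℝ Φ x w) (fderiv ℝ Φ x u) (fderiv ℝ Φ x v) +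
      Ω (Φ x) (fderiv ℝ (fderiv ℝ Φ) x w u) (fderiv ℝ Φ x v) +
      Ω (Φ x) (fderiv ℝ Φ x u) (fderiv ℝ (fderiv ℝ Φ) x w v) := by
  have h1 : HasFDerivAt Φ (fderiv ℝ Φ x) x := (hΦ.differentiableAt (by norm_num)).hasFDerivAt
  have h2 : HasFDerivAt (fderiv ℝ Φ) (fderiv ℝ (fderiv ℝ Φ) x) x := by
    have h3 : ContDiffAt ℝ 1 (fderiv ℝ Φ) x := hΦ.fderiv_right (by norm_num)
    exact (h3.differentiableAt (by norm_num)).hasFDerivAt
  have h0 : HasFDerivAt Ω (fderiv ℝ Ω (Φ x)) (Φ x) := hΩ.hasFDerivAt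
  have h3 : HasFDerivAt (fun y => Ω (Φ y)) ((fderiv ℝ Ω (Φ x)).comp (fderiv ℝ Φ x)) x :=
    HasFDerivAt.comp (g := Ω) (f := Φ) x h0 h1
  have hu : HasFDerivAt (fun y => fderiv ℝ Φ y u) ((fderiv ℝ (fderiv ℝ Φ) x).flip u) x := by
    have := h2.clm_apply (hasFDerivAt_const u x)
    convert! this using 1
    ext w
    simp
  have hv : HasFDerivAt (fun y => fderiv ℝ Φ y v) ((fderiv ℝ (fderiv ℝ Φ) x).flip v) x := by
    have := h2.clm_apply (hasFDerivAt_const v x)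
    convert! this using 1
    ext w
    simp
  have h4 := (h3.clm_apply hu).clm_apply hv
  refine ⟨_, h4, fun w => ?_⟩
  simp
  ring

theorem pb_closed {Ω : V → V →L[ℝ] V →L[ℝ] ℝ} {Φ : W → V} {x : W}
    (hΩ : DifferentiableAt ℝ Ω (Φ x)) (hΦ : ContDiffAt ℝ 2 Φ x)
    (halt : ∀ u, Ω (Φ x) u u = 0)
    (hcl : ∀ a b c : V, fderiv ℝ Ω (Φ x) a b c + fderiv ℝ Ω (Φ x) b c a +
      fderiv ℝ Ω (Φ x) c a b = 0) (a b c : W) :
    fderiv ℝ (pb Ω Φ b c) x a + fderiv ℝ (pb Ω Φ c a) x b + fderiv ℝ (pb Ω Φ a b) x c = 0 := by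
  obtain ⟨L1, h1, e1⟩ := pb_hasFDerivAt hΩ hΦ b c
  obtain ⟨L2, h2, e2⟩ := pb_hasFDerivAt hΩ hΦ c a
  obtain ⟨L3, h3, e3⟩ := pb_hasFDerivAt hΩ hΦ a b
  rw [h1.fderiv, h2.fderiv, h3.fderiv, e1, e2, e3]
  have hsym : IsSymmSndFDerivAt ℝ Φ x := hΦ.isSymmSndFDerivAt (by simp)
  have hanti : ∀ u v, Ω (Φ x) u v = - Ω (Φ x) v u := by
    intro u v
    have := halt (u + v)
    simp only [map_add, add_apply, halt] at this
    linarith
  have s1 := hsym a b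
  have s2 := hsym a c
  have s3 := hsym b c
  rw [s1, s2, s3]
  have t1 := hanti (fderiv ℝ (fderiv ℝ Φ) x b a) (fderiv ℝ Φ x c)
  have t2 := hanti (fderiv ℝ (fderiv ℝ Φ) x c a) (fderiv ℝ Φ x b)
  have t3 := hanti (fderiv ℝ (fderiv ℝ Φ) x c b) (fderiv ℝ Φ x a)
  have := hcl (fderiv ℝ Φ x a) (fderiv ℝ Φ x b) (fderiv ℝ Φ x c)
  linarith

end closed

section box

variable {V : Type*} [NormedAddCommGroup V] [NormedSpace ℝ V]

theorem cons_eq_sum {N : ℕ} (s : Fin N → ℝ) :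
    (Fin.cons 0 s : Fin (N + 1) → ℝ) = ∑ l : Fin N, s l • Pi.single l.succ (1 : ℝ) := by
  ext i
  refine Fin.cases ?_ (fun j => ?_) i
  · simp
  · rw [Fin.cons_succ, Finset.sum_apply]
    rw [Finset.sum_eq_single j]
    · simp
    · intro l _ hl
      simp [Ne.symm hl]
    · simp

theorem periods_eq {N : ℕ} {Ω : V → V →L[ℝ] V →L[ℝ] ℝ} {Φ : (Fin (N + 1) → ℝ) → V}
    (hΩ : ∀ x ∈ Set.Icc (0 : Fin (N + 1) → ℝ) 1, DifferentiableAt ℝ Ω (Φ x))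
    (hΦ : ∀ x ∈ Set.Icc (0 : Fin (N + 1) → ℝ) 1, ContDiffAt ℝ 2 Φ x)
    (halt : ∀ x ∈ Set.Icc (0 : Fin (N + 1) → ℝ) 1, ∀ u, Ω (Φ x) u u = 0)
    (hcl : ∀ x ∈ Set.Icc (0 : Fin (N + 1) → ℝ) 1, ∀ a b c : V, fderiv ℝ Ω (Φ x) a b c +
      fderiv ℝ Ω (Φ x) b c a + fderiv ℝ Ω (Φ x) c a b = 0)
    (hper : ∀ x ∈ Set.Icc (0 : Fin (N + 1) → ℝ) 1, ∀ l : Fin N, ∀ u v,
      pb Ω Φ u v (x + Pi.single l.succ 1) = pb Ω Φ u v x)
    (s t : Fin N → ℝ) :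
    ∫ θ in Set.Icc (0 : Fin N → ℝ) 1, pb Ω Φ (Fin.cons 0 s) (Fin.cons 0 t) (Fin.cons 1 θ) =
    ∫ θ in Set.Icc (0 : Fin N → ℝ) 1, pb Ω Φ (Fin.cons 0 s) (Fin.cons 0 t) (Fin.cons 0 θ) := by
  set S : Fin (N + 1) → ℝ := Fin.cons 0 s with hS
  set T : Fin (N + 1) → ℝ := Fin.cons 0 t with hT
  set e0 : Fin (N + 1) → ℝ := Pi.single 0 1 with he0
  have hd : ∀ u v, ∀ x ∈ Set.Icc (0 : Fin (N + 1) → ℝ) 1, DifferentiableAt ℝ (pb Ω Φ u v) x := by
    intro u v x hx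
    obtain ⟨L, hL, -⟩ := pb_hasFDerivAt (hΩ x hx) (hΦ x hx) u v
    exact hL.differentiableAt
  let f : Fin (N + 1) → (Fin (N + 1) → ℝ) → ℝ := Fin.cons (pb Ω Φ S T)
    (fun l x => s l * pb Ω Φ T e0 x + t l * pb Ω Φ e0 S x)
  have hf0 : f 0 = pb Ω Φ S T := rfl
  have hfs : ∀ l : Fin N, f l.succ = fun x => s l * pb Ω Φ T e0 x + t l * pb Ω Φ e0 S x :=
    fun l => rfl
  have hfd : ∀ i, ∀ x ∈ Set.Icc (0 : Fin (N + 1) → ℝ) 1, DifferentiableAt ℝ (f i) x := by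
    intro i x hx
    refine Fin.cases ?_ (fun l => ?_) i
    · rw [hf0]; exact hd _ _ x hx
    · rw [hfs]
      exact ((hd _ _ x hx).const_mul _).add ((hd _ _ x hx).const_mul _)
  have hdiv : ∀ x ∈ Set.Icc (0 : Fin (N + 1) → ℝ) 1,
      ∑ i, fderiv ℝ (f i) x (Pi.single i 1) = 0 := by
    intro x hx
    rw [Fin.sum_univ_succ, hf0]
    have h1 : ∀ l : Fin N, fderiv ℝ (f l.succ) x (Pi.single l.succ 1) =
        s l * fderiv ℝ (pb Ω Φ T e0) x (Pi.single l.succ 1) +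
        t l * fderiv ℝ (pb Ω Φ e0 S) x (Pi.single l.succ 1) := by
      intro l
      rw [hfs, fderiv_fun_add ((hd _ _ x hx).const_mul _) ((hd _ _ x hx).const_mul _),
        fderiv_const_mul (hd _ _ x hx), fderiv_const_mul (hd _ _ x hx)]
      simp
    rw [Finset.sum_congr rfl (fun l _ => h1 l), Finset.sum_add_distrib]
    have h2 : ∀ (L : (Fin (N + 1) → ℝ) →L[ℝ] ℝ) (s : Fin N → ℝ),
        ∑ l, s l * L (Pi.single l.succ 1) = L (Fin.cons 0 s) := by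
      intro L s
      rw [cons_eq_sum, map_sum]
      refine Finset.sum_congr rfl (fun l _ => ?_)
      rw [map_smul, smul_eq_mul]
    rw [h2, h2, ← add_assoc]
    exact pb_closed (hΩ x hx) (hΦ x hx) (halt x hx) (hcl x hx) e0 S T
  have hmain := integral_divergence_of_hasFDerivAt_off_countable' (0 : Fin (N + 1) → ℝ) 1
    zero_le_one f (fun i x => fderiv ℝ (f i) x) ∅ Set.countable_empty
    (fun i x hx => (hfd i x hx).continuousAt.continuousWithinAt)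
    (fun x hx i => (hfd i x ?_).hasFDerivAt) ?_
  · rw [setIntegral_congr_fun measurableSet_Icc hdiv] at hmain
    rw [Fin.sum_univ_succ] at hmain
    have h3 : ∀ l : Fin N, ((∫ x in Set.Icc ((0 : Fin (N + 1) → ℝ) ∘ Fin.succAbove l.succ)
        ((1 : Fin (N + 1) → ℝ) ∘ Fin.succAbove l.succ), f l.succ (Fin.insertNth l.succ
          ((1 : Fin (N + 1) → ℝ) l.succ) x)) -
        ∫ x in Set.Icc ((0 : Fin (N + 1) → ℝ) ∘ Fin.succAbove l.succ)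
        ((1 : Fin (N + 1) → ℝ) ∘ Fin.succAbove l.succ), f l.succ (Fin.insertNth l.succ
          ((0 : Fin (N + 1) → ℝ) l.succ) x)) = 0 := by
      intro l
      rw [sub_eq_zero]
      refine setIntegral_congr_fun measurableSet_Icc (fun y hy => ?_)
      have h4 : (Fin.insertNth l.succ ((1 : Fin (N + 1) → ℝ) l.succ) y : Fin (N + 1) → ℝ) =
          (Fin.insertNth l.succ ((0 : Fin (N + 1) → ℝ) l.succ) y : Fin (N + 1) → ℝ) +
          Pi.single l.succ 1 := by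
        ext j
        refine Fin.succAboveCases l.succ ?_ (fun j => ?_) j
        · simp
        · simp [Fin.succAbove_ne]
      have h5 : (Fin.insertNth l.succ ((0 : Fin (N + 1) → ℝ) l.succ) y : Fin (N + 1) → ℝ) ∈
          Set.Icc (0 : Fin (N + 1) → ℝ) 1 := by
        rw [Fin.insertNth_mem_Icc]
        exact ⟨by simp, hy⟩
      show f l.succ _ = f l.succ _
      rw [h4, hfs]
      show s l * pb Ω Φ T e0 _ + t l * pb Ω Φ e0 S _ = s l * pb Ω Φ T e0 _ + t l * pb Ω Φ e0 S _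
      rw [hper _ h5, hper _ h5]
    rw [Finset.sum_congr rfl (fun l _ => h3 l)] at hmain
    simp only [integral_zero, Finset.sum_const_zero, add_zero] at hmain
    rw [eq_comm, sub_eq_zero] at hmain
    have e1 : ((0 : Fin (N + 1) → ℝ) ∘ Fin.succAbove 0) = (0 : Fin N → ℝ) := rfl
    have e2 : ((1 : Fin (N + 1) → ℝ) ∘ Fin.succAbove 0) = (1 : Fin N → ℝ) := rfl
    rw [e1, e2, hf0] at hmain
    simp only [Fin.insertNth_zero'] at hmain
    exact hmain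
  · rw [Set.sdiff_empty, Set.mem_univ_pi] at hx
    exact ⟨fun i => (hx i).1.le, fun i => (hx i).2.le⟩
  · exact (integrableOn_zero).congr_fun (fun x hx => (hdiv x hx).symm) measurableSet_Icc

end box

section concrete

variable {b k : ℕ} {D : Set (Fin b → ℂ)} {Λ : (Fin b → ℂ) → Fin (2 * k) → Fin k → ℂ}

/-- holomorphic maps are twice continuously differentiable -/
theorem contDiffAt_two (hD : IsOpen D) (hΛ : DifferentiableOn ℂ Λ D) {z : Fin b → ℂ}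
    (hz : z ∈ D) : ContDiffAt ℝ 2 Λ z := by
  have h1 := Pool.Agent.Helper8.Abund.differentiableOn_fderiv hD hΛ
  have h2 := Pool.Agent.Helper8.Abund.differentiableOn_fderiv hD h1
  have h3 : ContDiffOn ℂ 2 Λ D := by
    have e2 : (2 : WithTop ℕ∞) = 1 + 1 := by norm_num
    rw [e2, contDiffOn_succ_iff_fderiv_of_isOpen hD]
    refine ⟨hΛ, by simp, ?_⟩
    have e1 : (1 : WithTop ℕ∞) = 0 + 1 := by norm_num
    rw [e1, contDiffOn_succ_iff_fderiv_of_isOpen hD]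
    refine ⟨h1, by simp, ?_⟩
    rw [contDiffOn_zero]
    exact h2.continuousOn
  exact (h3.contDiffAt (hD.mem_nhds hz)).restrict_scalars ℝ

/-- the map `(ε, θ) ↦ (z + ε ξ, ∑ θ_l Λ_l(z + ε ξ))` -/
noncomputable def Phi (Λ : (Fin b → ℂ) → Fin (2 * k) → Fin k → ℂ) (z ξ : Fin b → ℂ)
    (x : Fin (2 * k + 1) → ℝ) : Fin (b + k) → ℂ :=
  Fin.append (z + ((x 0 : ℝ) : ℂ) • ξ) (comb Λ (z + ((x 0 : ℝ) : ℂ) • ξ) (Fin.tail x))

theorem base_append (z : Fin b → ℂ) (w : Fin k → ℂ) : base (Fin.append z w) = z := by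
  ext i
  simp [base]

theorem fib_append (z : Fin b → ℂ) (w : Fin k → ℂ) : fib (Fin.append z w) = w := by
  ext i
  simp [fib]

theorem base_Phi (z ξ : Fin b → ℂ) (x : Fin (2 * k + 1) → ℝ) :
    base (Phi Λ z ξ x) = z + ((x 0 : ℝ) : ℂ) • ξ := base_append _ _

theorem contDiff_line (z ξ : Fin b → ℂ) :
    ContDiff ℝ 2 (fun x : Fin (2 * k + 1) → ℝ => z + ((x 0 : ℝ) : ℂ) • ξ) := by
  have h1 : ContDiff ℝ 2 (fun x : Fin (2 * k + 1) → ℝ => ((x 0 : ℝ) : ℂ)) :=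
    Complex.ofRealCLM.contDiff.comp (contDiff_apply ℝ ℝ 0)
  exact contDiff_const.add (h1.smul contDiff_const)

theorem contDiffAt_Phi (hD : IsOpen D) (hΛ : DifferentiableOn ℂ Λ D) {z ξ : Fin b → ℂ}
    {x : Fin (2 * k + 1) → ℝ} (hx : z + ((x 0 : ℝ) : ℂ) • ξ ∈ D) :
    ContDiffAt ℝ 2 (Phi Λ z ξ) x := by
  have h1 : ContDiffAt ℝ 2 (fun x : Fin (2 * k + 1) → ℝ => z + ((x 0 : ℝ) : ℂ) • ξ) x :=
    (contDiff_line z ξ).contDiffAt
  have h2 : ContDiffAt ℝ 2 (fun x : Fin (2 * k + 1) → ℝ => Λ (z + ((x 0 : ℝ) : ℂ) • ξ)) x :=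
    ContDiffAt.comp (g := Λ) x (contDiffAt_two hD hΛ hx) h1
  rw [contDiffAt_pi]
  intro i
  refine Fin.addCases (fun i => ?_) (fun j => ?_) i
  · have h3 : (fun x : Fin (2 * k + 1) → ℝ => Phi Λ z ξ x (Fin.castAdd k i)) =
        fun x => (z + ((x 0 : ℝ) : ℂ) • ξ) i := by
      funext x
      simp [Phi]
    rw [h3]
    exact contDiffAt_pi.1 h1 i
  · have h3 : (fun x : Fin (2 * k + 1) → ℝ => Phi Λ z ξ x (Fin.natAdd b j)) =
        fun x => ∑ l : Fin (2 * k), ((x l.succ : ℝ) : ℂ) * Λ (z + ((x 0 : ℝ) : ℂ) • ξ) l j := by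
      funext x
      simp [Phi, comb, Fin.tail]
    rw [h3]
    refine ContDiffAt.sum (fun l _ => ?_)
    have h4 : ContDiffAt ℝ 2 (fun x : Fin (2 * k + 1) → ℝ => ((x l.succ : ℝ) : ℂ)) x :=
      (Complex.ofRealCLM.contDiff.comp (contDiff_apply ℝ ℝ l.succ)).contDiffAt
    exact h4.mul (contDiffAt_pi.1 (contDiffAt_pi.1 h2 l) j)

theorem fderiv_Phi (hD : IsOpen D) (hΛ : DifferentiableOn ℂ Λ D) {z ξ : Fin b → ℂ}
    {x : Fin (2 * k + 1) → ℝ} (hx : z + ((x 0 : ℝ) : ℂ) • ξ ∈ D) (s : Fin (2 * k) → ℝ) :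
    fderiv ℝ (Phi Λ z ξ) x (Fin.cons 0 s) =
      Fin.append 0 (comb Λ (z + ((x 0 : ℝ) : ℂ) • ξ) s) := by
  have h1 : HasFDerivAt (Phi Λ z ξ) (fderiv ℝ (Phi Λ z ξ) x) x :=
    ((contDiffAt_Phi hD hΛ hx).differentiableAt (by norm_num)).hasFDerivAt
  have h2 : HasDerivAt (fun τ : ℝ => x + τ • (Fin.cons 0 s : Fin (2 * k + 1) → ℝ))
      (Fin.cons 0 s) 0 := by
    have := ((hasDerivAt_id (0 : ℝ)).smul_const (Fin.cons 0 s : Fin (2 * k + 1) → ℝ)).const_add x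
    simpa using this
  have h3 : HasDerivAt (fun τ : ℝ => Phi Λ z ξ (x + τ • (Fin.cons 0 s : Fin (2 * k + 1) → ℝ)))
      (fderiv ℝ (Phi Λ z ξ) x (Fin.cons 0 s)) 0 := by
    refine HasFDerivAt.comp_hasDerivAt (l := Phi Λ z ξ) (0 : ℝ) ?_ h2
    simpa using h1
  have h4 : (fun τ : ℝ => Phi Λ z ξ (x + τ • (Fin.cons 0 s : Fin (2 * k + 1) → ℝ))) =
      fun τ : ℝ => Phi Λ z ξ x + τ • (Fin.append 0 (comb Λ (z + ((x 0 : ℝ) : ℂ) • ξ) s) :
        Fin (b + k) → ℂ) := by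
    funext τ
    ext i
    refine Fin.addCases (fun i => ?_) (fun j => ?_) i
    · simp [Phi]
    · simp [Phi, comb, Fin.tail, add_mul, Finset.sum_add_distrib, Finset.mul_sum, mul_assoc]
  have h5 : HasDerivAt (fun τ : ℝ => Phi Λ z ξ x + τ •
      (Fin.append 0 (comb Λ (z + ((x 0 : ℝ) : ℂ) • ξ) s) : Fin (b + k) → ℂ))
      (Fin.append 0 (comb Λ (z + ((x 0 : ℝ) : ℂ) • ξ) s)) 0 := by
    have := ((hasDerivAt_id (0 : ℝ)).smul_const
      (Fin.append 0 (comb Λ (z + ((x 0 : ℝ) : ℂ) • ξ) s) : Fin (b + k) → ℂ)).const_add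
        (Phi Λ z ξ x)
    simpa using this
  rw [h4] at h3
  exact h3.unique h5

theorem differentiableAt_shift (hD : IsOpen D) (hΛ : DifferentiableOn ℂ Λ D)
    (m : Fin (2 * k) → ℝ) {v : Fin (b + k) → ℂ} (hv : base v ∈ D) :
    DifferentiableAt ℂ (shift Λ m) v := by
  have hb : DifferentiableAt ℂ (base : (Fin (b + k) → ℂ) → (Fin b → ℂ)) v := by
    rw [differentiableAt_pi]
    intro i
    exact differentiableAt_apply _ _
  have h2 : DifferentiableAt ℂ (fun v : Fin (b + k) → ℂ => Λ (base v)) v :=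
    DifferentiableAt.comp (g := Λ) v ((hΛ _ hv).differentiableAt (hD.mem_nhds hv)) hb
  rw [differentiableAt_pi]
  intro i
  refine Fin.addCases (fun i => ?_) (fun j => ?_) i
  · have h3 : (fun v : Fin (b + k) → ℂ => shift Λ m v (Fin.castAdd k i)) = fun v => base v i := by
      funext v
      simp [shift]
    rw [h3]
    exact differentiableAt_pi.1 hb i
  · have h3 : (fun v : Fin (b + k) → ℂ => shift Λ m v (Fin.natAdd b j)) =
        fun v => v (Fin.natAdd b j) + ∑ l, (m l : ℂ) * Λ (base v) l j := by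
      funext v
      simp [shift, fib, comb]
    rw [h3]
    refine (differentiableAt_apply _ _).add (DifferentiableAt.fun_sum (fun l _ => ?_))
    exact (differentiableAt_const _).mul
      (differentiableAt_pi.1 (differentiableAt_pi.1 h2 l) j)

theorem Phi_shift (z ξ : Fin b → ℂ) (x : Fin (2 * k + 1) → ℝ) (m : Fin (2 * k) → ℝ) :
    Phi Λ z ξ (x + Fin.cons 0 m) = shift Λ m (Phi Λ z ξ x) := by
  ext i
  refine Fin.addCases (fun i => ?_) (fun j => ?_) i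
  · simp [Phi, shift, base]
  · simp [Phi, shift, base_append, fib_append, comb, Fin.tail, add_mul, Finset.sum_add_distrib]

theorem pb_per (hD : IsOpen D) (hΛ : DifferentiableOn ℂ Λ D)
    {Ω : (Fin (b + k) → ℂ) → (Fin (b + k) → ℂ) →L[ℝ] (Fin (b + k) → ℂ) →L[ℝ] ℝ}
    (hinv : ∀ v ∈ tube D hD k, ∀ (m : Fin (2 * k) → ℤ), ∀ x y : Fin (b + k) → ℂ,
      Ω (shift Λ (fun l => (m l : ℝ)) v) (fderiv ℂ (shift Λ (fun l => (m l : ℝ))) v x)
        (fderiv ℂ (shift Λ (fun l => (m l : ℝ))) v y) = Ω v x y)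
    {z ξ : Fin b → ℂ} {x : Fin (2 * k + 1) → ℝ} (hx : z + ((x 0 : ℝ) : ℂ) • ξ ∈ D)
    (m : Fin (2 * k) → ℤ) (u v : Fin (2 * k + 1) → ℝ) :
    pb Ω (Phi Λ z ξ) u v (x + Fin.cons 0 (fun l => (m l : ℝ))) = pb Ω (Phi Λ z ξ) u v x := by
  have hb : base (Phi Λ z ξ x) ∈ D := by rwa [base_Phi]
  have h1 : DifferentiableAt ℝ (Phi Λ z ξ) x :=
    (contDiffAt_Phi hD hΛ hx).differentiableAt (by norm_num)
  have h2 := differentiableAt_shift hD hΛ (fun l => (m l : ℝ)) hb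
  have h3 : HasFDerivAt (fun y => Phi Λ z ξ (y + Fin.cons 0 (fun l => (m l : ℝ))))
      (((fderiv ℂ (shift Λ (fun l => (m l : ℝ))) (Phi Λ z ξ x)).restrictScalars ℝ).comp
        (fderiv ℝ (Phi Λ z ξ) x)) x := by
    have h4 : (fun y => Phi Λ z ξ (y + Fin.cons 0 (fun l => (m l : ℝ)))) =
        fun y => shift Λ (fun l => (m l : ℝ)) (Phi Λ z ξ y) := by
      funext y
      exact Phi_shift z ξ y _
    rw [h4]
    exact HasFDerivAt.comp (g := shift Λ (fun l => (m l : ℝ))) x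
      (h2.hasFDerivAt.restrictScalars ℝ) h1.hasFDerivAt
  have h5 : fderiv ℝ (Phi Λ z ξ) (x + Fin.cons 0 (fun l => (m l : ℝ))) =
      ((fderiv ℂ (shift Λ (fun l => (m l : ℝ))) (Phi Λ z ξ x)).restrictScalars ℝ).comp
        (fderiv ℝ (Phi Λ z ξ) x) := by
    rw [← fderiv_comp_add_right]
    exact h3.fderiv
  unfold pb
  rw [h5, Phi_shift]
  exact hinv _ hb m _ _

theorem kappa_seg (hD : IsOpen D) (hΛ : DifferentiableOn ℂ Λ D)
    {Ω : (Fin (b + k) → ℂ) → (Fin (b + k) → ℂ) →L[ℝ] (Fin (b + k) → ℂ) →L[ℝ] ℝ}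
    (hΩ : ContDiffOn ℝ 1 Ω (tube D hD k)) (halt : ∀ v ∈ tube D hD k, ∀ u, Ω v u u = 0)
    (hcl : ∀ v ∈ tube D hD k, ∀ x y z : Fin (b + k) → ℂ,
      fderiv ℝ Ω v x y z + fderiv ℝ Ω v y z x + fderiv ℝ Ω v z x y = 0)
    (hinv : ∀ v ∈ tube D hD k, ∀ (m : Fin (2 * k) → ℤ), ∀ x y : Fin (b + k) → ℂ,
      Ω (shift Λ (fun l => (m l : ℝ)) v) (fderiv ℂ (shift Λ (fun l => (m l : ℝ))) v x)
        (fderiv ℂ (shift Λ (fun l => (m l : ℝ))) v y) = Ω v x y)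
    {z ξ : Fin b → ℂ} (hseg : ∀ τ ∈ Set.Icc (0 : ℝ) 1, z + (τ : ℂ) • ξ ∈ D)
    (s t : Fin (2 * k) → ℝ) :
    ∫ θ in Set.Icc (0 : Fin (2 * k) → ℝ) 1,
      Ω (Fin.append (z + ξ) (comb Λ (z + ξ) θ)) (Fin.append 0 (comb Λ (z + ξ) s))
        (Fin.append 0 (comb Λ (z + ξ) t)) =
    ∫ θ in Set.Icc (0 : Fin (2 * k) → ℝ) 1,
      Ω (Fin.append z (comb Λ z θ)) (Fin.append 0 (comb Λ z s)) (Fin.append 0 (comb Λ z t)) := by
  have hx : ∀ x ∈ Set.Icc (0 : Fin (2 * k + 1) → ℝ) 1, z + ((x 0 : ℝ) : ℂ) • ξ ∈ D :=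
    fun x hx => hseg _ ⟨hx.1 0, hx.2 0⟩
  have hT : ∀ x ∈ Set.Icc (0 : Fin (2 * k + 1) → ℝ) 1, Phi Λ z ξ x ∈ tube D hD k := by
    intro x hx'
    show base (Phi Λ z ξ x) ∈ D
    rw [base_Phi]
    exact hx x hx'
  have hmain := periods_eq (Ω := Ω) (Φ := Phi Λ z ξ)
    (fun x hx' => (hΩ.differentiableOn (by norm_num) _ (hT x hx')).differentiableAt
      ((tube D hD k).isOpen.mem_nhds (hT x hx')))
    (fun x hx' => contDiffAt_Phi hD hΛ (hx x hx'))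
    (fun x hx' => halt _ (hT x hx')) (fun x hx' => hcl _ (hT x hx'))
    (fun x hx' l u v => by
      have h1 := pb_per hD hΛ hinv (hx x hx') (Pi.single l 1) u v
      have h2 : (Fin.cons 0 (fun l' => ((Pi.single l 1 : Fin (2 * k) → ℤ) l' : ℝ)) :
          Fin (2 * k + 1) → ℝ) = Pi.single l.succ 1 := by
        ext i
        refine Fin.cases ?_ (fun j => ?_) i
        · simp
        · by_cases hj : j = l
          · subst hj; simp
          · simp [hj]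
      rw [h2] at h1
      exact h1) s t
  have e1 : ∀ θ : Fin (2 * k) → ℝ, pb Ω (Phi Λ z ξ) (Fin.cons 0 s) (Fin.cons 0 t) (Fin.cons 1 θ) =
      Ω (Fin.append (z + ξ) (comb Λ (z + ξ) θ)) (Fin.append 0 (comb Λ (z + ξ) s))
        (Fin.append 0 (comb Λ (z + ξ) t)) := by
    intro θ
    have h1 : z + (((Fin.cons 1 θ : Fin (2 * k + 1) → ℝ) 0 : ℝ) : ℂ) • ξ = z + ξ := by simp
    have h2 : z + (((Fin.cons 1 θ : Fin (2 * k + 1) → ℝ) 0 : ℝ) : ℂ) • ξ ∈ D := by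
      have := hseg 1 ⟨zero_le_one, le_refl 1⟩
      simpa using this
    unfold pb
    rw [fderiv_Phi hD hΛ h2, fderiv_Phi hD hΛ h2, h1]
    have h3 : Phi Λ z ξ (Fin.cons 1 θ) = Fin.append (z + ξ) (comb Λ (z + ξ) θ) := by
      unfold Phi
      rw [h1, Fin.tail_cons]
    rw [h3]
  have e0 : ∀ θ : Fin (2 * k) → ℝ, pb Ω (Phi Λ z ξ) (Fin.cons 0 s) (Fin.cons 0 t) (Fin.cons 0 θ) =
      Ω (Fin.append z (comb Λ z θ)) (Fin.append 0 (comb Λ z s)) (Fin.append 0 (comb Λ z t)) := by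
    intro θ
    have h1 : z + (((Fin.cons 0 θ : Fin (2 * k + 1) → ℝ) 0 : ℝ) : ℂ) • ξ = z := by simp
    have h2 : z + (((Fin.cons 0 θ : Fin (2 * k + 1) → ℝ) 0 : ℝ) : ℂ) • ξ ∈ D := by
      have := hseg 0 ⟨le_refl 0, zero_le_one⟩
      simpa using this
    unfold pb
    rw [fderiv_Phi hD hΛ h2, fderiv_Phi hD hΛ h2, h1]
    have h3 : Phi Λ z ξ (Fin.cons 0 θ) = Fin.append z (comb Λ z θ) := by
      unfold Phi
      rw [h1, Fin.tail_cons]
    rw [h3]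
  simp only [e1, e0] at hmain
  exact hmain

end concrete

theorem kappa_const {b k : ℕ} {D : Set (Fin b → ℂ)} (hD : IsOpen D) (hDc : IsPreconnected D)
    {Λ : (Fin b → ℂ) → Fin (2 * k) → Fin k → ℂ} (hΛ : DifferentiableOn ℂ Λ D)
    {Ω : (Fin (b + k) → ℂ) → (Fin (b + k) → ℂ) →L[ℝ] (Fin (b + k) → ℂ) →L[ℝ] ℝ}
    (hΩ : ContDiffOn ℝ 1 Ω (tube D hD k)) (halt : ∀ v ∈ tube D hD k, ∀ u, Ω v u u = 0)
    (hcl : ∀ v ∈ tube D hD k, ∀ x y z : Fin (b + k) → ℂ,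
      fderiv ℝ Ω v x y z + fderiv ℝ Ω v y z x + fderiv ℝ Ω v z x y = 0)
    (hinv : ∀ v ∈ tube D hD k, ∀ (m : Fin (2 * k) → ℤ), ∀ x y : Fin (b + k) → ℂ,
      Ω (shift Λ (fun l => (m l : ℝ)) v) (fderiv ℂ (shift Λ (fun l => (m l : ℝ))) v x)
        (fderiv ℂ (shift Λ (fun l => (m l : ℝ))) v y) = Ω v x y)
    {z₀ z₁ : Fin b → ℂ} (hz₀ : z₀ ∈ D) (hz₁ : z₁ ∈ D) (s t : Fin (2 * k) → ℝ) :
    ∫ θ in Set.pi Set.univ (fun _ : Fin (2 * k) => Set.Icc (0 : ℝ) 1),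
      Ω (Fin.append z₀ (comb Λ z₀ θ)) (Fin.append 0 (comb Λ z₀ s)) (Fin.append 0 (comb Λ z₀ t)) =
    ∫ θ in Set.pi Set.univ (fun _ : Fin (2 * k) => Set.Icc (0 : ℝ) 1),
      Ω (Fin.append z₁ (comb Λ z₁ θ)) (Fin.append 0 (comb Λ z₁ s)) (Fin.append 0 (comb Λ z₁ t)) := by
  have hI : Set.pi Set.univ (fun _ : Fin (2 * k) => Set.Icc (0 : ℝ) 1) =
      Set.Icc (0 : Fin (2 * k) → ℝ) 1 := by
    rw [← Set.pi_univ_Icc]
    rfl
  rw [hI]
  let κ : (Fin b → ℂ) → ℝ := fun z => ∫ θ in Set.Icc (0 : Fin (2 * k) → ℝ) 1,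
      Ω (Fin.append z (comb Λ z θ)) (Fin.append 0 (comb Λ z s)) (Fin.append 0 (comb Λ z t))
  have hloc : ∀ z ∈ D, κ =ᶠ[𝓝 z] fun _ => κ z := by
    intro z hz
    obtain ⟨r, hr, hball⟩ := Metric.isOpen_iff.1 hD z hz
    filter_upwards [Metric.ball_mem_nhds z hr] with w hw
    have h1 := kappa_seg hD hΛ hΩ halt hcl hinv (z := z) (ξ := w - z) (fun τ hτ => by
      apply hball
      rw [mem_ball, dist_eq_norm, add_sub_cancel_left, norm_smul, Complex.norm_real,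
        Real.norm_eq_abs, abs_of_nonneg hτ.1]
      rw [mem_ball, dist_eq_norm] at hw
      calc τ * ‖w - z‖ ≤ 1 * ‖w - z‖ := by gcongr; exact hτ.2
        _ = ‖w - z‖ := one_mul _
        _ < r := hw) s t
    rw [add_sub_cancel] at h1
    exact h1
  exact hD.is_const_of_fderiv_eq_zero (𝕜 := ℝ) hDc (f := κ)
    (fun z hz => ((hloc z hz).differentiableAt_iff.2 (differentiableAt_const _)).differentiableWithinAt)
    (fun z hz => by
      rw [(hloc z hz).fderiv_eq]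
      simp) hz₀ hz₁

end Pool.Agent.Helper22.Abund
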